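import Mathlib
import Pool.Agent.TH932.S2.Sst

set_option autoImplicit false

/-!
Ridout's theorem with moving targets, from the subspace theorem.
-/

open Finset Filter Topology

namespace Pool.Agent.H977.SP

open Pool.Agent.TH461.SST

/-- the exponent of `p` in the integer `x` -/
def vp (p : ℕ) (x : ℤ) : ℕ := x.natAbs.factorization p

theorem vp_mul (p : ℕ) {x y : ℤ} (hx : x ≠ 0) (hy : y ≠ 0) : vp p (x * y) = vp p x + vp p y := by
  unfold vp
  rw [Int.natAbs_mul, Nat.factorization_mul (Int.natAbs_ne_zero.2 hx) (Int.natAbs_ne_zero.2 hy)]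
  rfl

theorem pow_vp_dvd (p : ℕ) (x : ℤ) : ((p ^ vp p x : ℕ) : ℤ) ∣ x := by
  rw [← Int.dvd_natAbs]
  exact_mod_cast Nat.ordProj_dvd _ _

theorem vp_log_le {p : ℕ} (hp : p.Prime) {x : ℤ} (hx : x ≠ 0) :
    (vp p x : ℝ) * Real.log p ≤ Real.log |(x : ℝ)| := by
  rw [← Real.log_pow]
  apply Real.log_le_log (by have := hp.pos; positivity)
  have h1 := Int.le_of_dvd (abs_pos.2 hx) ((dvd_abs _ _).2 (pow_vp_dvd p x))
  rw [← Int.cast_abs]
  exact_mod_cast h1

theorem sum_vp_le {s : ℕ} (b : Fin s → ℕ) (hb : ∀ v, (b v).Prime) (hinj : Function.Injective b)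
    {x : ℤ} (hx : x ≠ 0) : ∑ v, (vp (b v) x : ℝ) * Real.log (b v) ≤ Real.log |(x : ℝ)| := by
  have h1 : ∑ v, (vp (b v) x : ℝ) * Real.log (b v) =
      Real.log ((∏ v, (b v) ^ (vp (b v) x) : ℕ) : ℝ) := by
    push_cast
    rw [Real.log_prod (fun v _ => by have := (hb v).pos; positivity)]
    exact Finset.sum_congr rfl fun v _ => (Real.log_pow _ _).symm
  rw [h1]
  apply Real.log_le_log
  · exact_mod_cast Finset.prod_pos fun v _ => pow_pos (hb v).pos _
  have h2 : (∏ v, (b v) ^ (vp (b v) x)) ∣ x.natAbs := by
    apply Finset.prod_dvd_of_isRelPrime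
    · intro v _ w _ hvw
      exact Nat.coprime_iff_isRelPrime.1 (Nat.Coprime.pow _ _
        ((Nat.coprime_primes (hb v) (hb w)).2 (fun h => hvw (hinj h))))
    · intro v _
      exact Nat.ordProj_dvd _ _
  have h3 := Nat.le_of_dvd (Int.natAbs_pos.2 hx) h2
  rw [← Int.cast_abs, Int.abs_eq_natAbs]
  exact_mod_cast h3

/-- the matrix of the forms at a place -/
def mat {d : ℕ} (l : ℤ) (lam : Fin d → ℤ) : Matrix (Fin (d + 1)) (Fin (d + 1)) ℤ :=
  Matrix.of (Fin.cons (Fin.cons l lam) (fun i => Pi.single i.succ 1))

theorem mat_det {d : ℕ} (l : ℤ) (lam : Fin d → ℤ) : (mat l lam).det = l := by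
  have h1 : (mat l lam).BlockTriangular id := by
    intro i j hij
    unfold mat
    rw [Matrix.of_apply]
    induction i using Fin.cases with
    | zero => exact absurd hij (not_lt.2 (Fin.zero_le _))
    | succ i =>
      rw [Fin.cons_succ, Pi.single_apply, if_neg]
      exact fun h => by rw [h] at hij; exact lt_irrefl _ hij
  rw [Matrix.det_of_isUpperTriangular h1, Fin.prod_univ_succ]
  have h2 : ∀ i : Fin d, mat l lam i.succ i.succ = 1 := by
    intro i
    unfold mat
    rw [Matrix.of_apply, Fin.cons_succ, Pi.single_eq_same]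
  rw [Finset.prod_congr rfl fun i _ => h2 i]
  simp [mat]

theorem mat_zero {d : ℕ} (l : ℤ) (lam : Fin d → ℤ) (x : ℤ) (β : Fin d → ℤ) :
    ∑ j, mat l lam 0 j * (Fin.cons x β : Fin (d + 1) → ℤ) j = l * x + ∑ i, lam i * β i := by
  rw [Fin.sum_univ_succ]
  simp [mat]

/-- **Ridout's theorem with moving targets.** -/
theorem moving {s : ℕ} (b : Fin s → ℕ) (hb : ∀ v, (b v).Prime) (hinj : Function.Injective b) (d : ℕ) :
    ∀ (γ δ : ℝ) (_ : 0 < γ) (_ : 0 ≤ δ) (_ : d * δ < γ) (_ : δ < 1)
      (l : Fin s → ℤ) (_ : ∀ v, l v ≠ 0) (lam : Fin s → Fin d → ℤ)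
      (X : ℕ → ℤ) (_ : Tendsto (fun t => |(X t : ℝ)|) atTop atTop) (β : ℕ → Fin d → ℤ)
      (_ : ∀ t i, |(β t i : ℝ)| ≤ |(X t : ℝ)| ^ δ)
      (_ : ∀ t v, l v * X t + ∑ i, lam v i * β t i ≠ 0)
      (_ : ∀ t, (1 + γ) * Real.log |(X t : ℝ)| ≤
        ∑ v, (vp (b v) (l v * X t + ∑ i, lam v i * β t i) : ℝ) * Real.log (b v)), False := by
  induction d with
  | zero =>
    intro γ δ hγ hδ hdδ hδ1 l hl lam X hX β hβ hne hsum
    have h1 : ∀ t, X t ≠ 0 → γ * Real.log |(X t : ℝ)| ≤ ∑ v, (vp (b v) (l v) : ℝ) * Real.log (b v) := by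
      intro t ht
      have h2 := hsum t
      simp only [Finset.univ_eq_empty, Finset.sum_empty, add_zero] at h2
      have h3 : ∑ v, (vp (b v) (l v * X t) : ℝ) * Real.log (b v) =
          ∑ v, (vp (b v) (l v) : ℝ) * Real.log (b v) + ∑ v, (vp (b v) (X t) : ℝ) * Real.log (b v) := by
        rw [← Finset.sum_add_distrib]
        refine Finset.sum_congr rfl fun v _ => ?_
        rw [vp_mul _ (hl v) ht]
        push_cast
        ring
      rw [h3] at h2
      have h4 := sum_vp_le b hb hinj ht
      linarith
    have h5 : Tendsto (fun t => γ * Real.log |(X t : ℝ)|) atTop atTop :=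
      (Real.tendsto_log_atTop.comp hX).const_mul_atTop hγ
    obtain ⟨t, ht1, ht2⟩ := ((h5.eventually_gt_atTop
      (∑ v, (vp (b v) (l v) : ℝ) * Real.log (b v))).and (hX.eventually_gt_atTop 0)).exists
    have ht3 : X t ≠ 0 := by
      intro h0
      rw [h0] at ht2
      simp at ht2
    linarith [h1 t ht3]
  | succ d ih =>
    intro γ δ hγ hδ hdδ hδ1 l hl lam X hX β hβ hne hsum
    push_cast at hdδ
    have hlog := Real.tendsto_log_atTop.comp hX
    obtain ⟨T0, hT0⟩ := ((hX.eventually_ge_atTop 1).and (hlog.eventually_ge_atTop 1)).exists_forall_of_atTop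
    -- constants
    set K : Fin s → ℝ := fun v => |(l v : ℝ)| + ∑ i, |(lam v i : ℝ)| with hK
    have hK1 : ∀ v, 1 ≤ K v := by
      intro v
      have h1 : (1 : ℝ) ≤ |(l v : ℝ)| := by
        rw [← Int.cast_abs]; exact_mod_cast Int.one_le_abs (hl v)
      have h2 : 0 ≤ ∑ i, |(lam v i : ℝ)| := Finset.sum_nonneg fun i _ => abs_nonneg _
      simp only [hK]; linarith
    have hKL : ∀ v, 0 ≤ Real.log (K v) := fun v => Real.log_nonneg (hK1 v)
    set c : ℝ := 1 + ∑ v, Real.log (K v) with hc
    have hc1 : 1 ≤ c := by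
      have := Finset.sum_nonneg (s := Finset.univ) (fun v _ => hKL v)
      linarith
    have hβ1 : ∀ t, 1 ≤ |(X t : ℝ)| → ∀ i, |(β t i : ℝ)| ≤ |(X t : ℝ)| := by
      intro t ht i
      refine (hβ t i).trans ?_
      calc |(X t : ℝ)| ^ δ ≤ |(X t : ℝ)| ^ (1 : ℝ) := Real.rpow_le_rpow_of_exponent_le ht hδ1.le
        _ = _ := Real.rpow_one _
    obtain ⟨y, hy0, hy⟩ := Pool.Agent.TH932.S2.subspace (d + 2) s (by omega) 1
      (fun v => mat (l v) (lam v)) b
      ⟨by rw [Matrix.det_one]; exact one_ne_zero, fun v => by rw [mat_det]; exact hl v,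
        fun v => (hb v).two_le, fun v w hvw => (Nat.coprime_primes (hb v) (hb w)).2
          fun h => hvw (hinj h)⟩
      c (γ - ((d : ℝ) + 1) * δ) hc1 (by linarith)
      (fun t => Real.log |(X (t + T0) : ℝ)|) (hlog.comp (tendsto_add_atTop_nat T0))
      (fun t v j => if j = 0 then
        vp (b v) (l v * X (t + T0) + ∑ i, lam v i * β (t + T0) i) else 0)
      (fun t j => if j = 0 then |(X (t + T0) : ℝ)| else |(X (t + T0) : ℝ)| ^ δ)
      (by
        intro t
        obtain ⟨h1, h2⟩ := hT0 (t + T0) (by omega)
        have h2' : 1 ≤ Real.log |(X (t + T0) : ℝ)| := h2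
        refine ⟨?_, ?_, ?_, ?_⟩
        · intro v j
          beta_reduce
          split_ifs with hj
          · refine (vp_log_le (hb v) (hne (t + T0) v)).trans ?_
            have h3 : |((l v * X (t + T0) + ∑ i, lam v i * β (t + T0) i : ℤ) : ℝ)| ≤
                K v * |(X (t + T0) : ℝ)| := by
              push_cast
              refine (abs_add_le _ _).trans ?_
              rw [abs_mul]
              simp only [hK, add_mul]
              gcongr
              refine (Finset.abs_sum_le_sum_abs _ _).trans ?_
              rw [Finset.sum_mul]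
              refine Finset.sum_le_sum fun i _ => ?_
              rw [abs_mul]
              exact mul_le_mul_of_nonneg_left (hβ1 _ h1 i) (abs_nonneg _)
            have h4 : 0 < |((l v * X (t + T0) + ∑ i, lam v i * β (t + T0) i : ℤ) : ℝ)| :=
              abs_pos.2 (by exact_mod_cast hne (t + T0) v)
            have h5 := Real.log_le_log h4 h3
            rw [Real.log_mul (by linarith [hK1 v]) (by linarith)] at h5
            have h6 : Real.log (K v) ≤ ∑ v, Real.log (K v) :=
              Finset.single_le_sum (f := fun v => Real.log (K v)) (fun v _ => hKL v)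
                (Finset.mem_univ v)
            have h7 : 0 ≤ ∑ v, Real.log (K v) := Finset.sum_nonneg fun v _ => hKL v
            simp only [hc]
            nlinarith
          · simp only [Nat.cast_zero, zero_mul]
            positivity
        · intro j
          beta_reduce
          split_ifs with hj
          · linarith
          · apply Real.rpow_pos_of_pos; linarith
        · intro j
          beta_reduce
          split_ifs with hj
          · rw [abs_of_nonneg (by linarith)]; nlinarith
          · rw [Real.log_rpow (by linarith), abs_of_nonneg (by positivity)]; nlinarith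
        · rw [Fin.sum_univ_succ]
          simp only [if_true, Fin.succ_ne_zero, if_false]
          rw [Finset.sum_const, Finset.card_univ, Fintype.card_fin, nsmul_eq_mul,
            Real.log_rpow (by linarith)]
          have h3 : ∑ v : Fin s, ∑ j : Fin (d + 2), (((if j = 0 then
              vp (b v) (l v * X (t + T0) + ∑ i, lam v i * β (t + T0) i) else 0 : ℕ) : ℝ)) *
              Real.log (b v) = ∑ v, (vp (b v) (l v * X (t + T0) + ∑ i, lam v i * β (t + T0) i) : ℝ) *
                Real.log (b v) := by
            refine Finset.sum_congr rfl fun v _ => ?_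
            rw [Fin.sum_univ_succ]
            simp [Fin.succ_ne_zero]
          rw [h3]
          refine le_trans (le_of_eq ?_) (hsum (t + T0))
          push_cast
          ring)
      (fun t => Fin.cons (X (t + T0)) (β (t + T0)))
      (by
        intro t h0
        obtain ⟨h1, h2⟩ := hT0 (t + T0) (by omega)
        have h3 := congrFun h0 0
        simp only [Fin.cons_zero, Pi.zero_apply] at h3
        rw [h3] at h1
        norm_num at h1)
      (by
        intro t
        obtain ⟨h1, h2⟩ := hT0 (t + T0) (by omega)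
        refine ⟨?_, ?_⟩
        · intro j
          have h3 : ∑ k, (1 : Matrix (Fin (d + 2)) (Fin (d + 2)) ℤ) j k *
              (Fin.cons (X (t + T0)) (β (t + T0)) : Fin (d + 2) → ℤ) k =
              (Fin.cons (X (t + T0)) (β (t + T0)) : Fin (d + 2) → ℤ) j := by
            rw [Finset.sum_eq_single j]
            · rw [Matrix.one_apply_eq, one_mul]
            · intro k _ hk
              rw [Matrix.one_apply_ne (Ne.symm hk), zero_mul]
            · intro h; exact absurd (Finset.mem_univ _) h
          rw [h3]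
          induction j using Fin.cases with
          | zero => simp
          | succ j =>
            beta_reduce
            rw [Fin.cons_succ, if_neg (Fin.succ_ne_zero _)]
            exact hβ _ _
        · intro v j
          beta_reduce
          split_ifs with hj
          · subst hj
            rw [mat_zero]
            exact_mod_cast pow_vp_dvd _ _
          · simp)
    -- the relation
    have hrel : ∃ᶠ t in atTop, y 0 * X t + ∑ i : Fin (d + 1), y i.succ * β t i = 0 := by
      have h1 : ∃ᶠ t in atTop, y 0 * X (t + T0) + ∑ i : Fin (d + 1), y i.succ * β (t + T0) i = 0 := by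
        refine hy.mono fun t ht => ?_
        rw [Fin.sum_univ_succ] at ht
        simpa using ht
      exact (tendsto_add_atTop_nat T0).frequently h1
    -- the first coefficient vanishes
    have hy00 : y 0 = 0 := by
      by_contra hne0
      have h1 : Tendsto (fun t => |(X t : ℝ)| ^ (1 - δ)) atTop atTop :=
        (tendsto_rpow_atTop (by linarith)).comp hX
      obtain ⟨t, ht, ht1, ht2⟩ := (hrel.and_eventually
        ((h1.eventually_gt_atTop (∑ i : Fin (d + 1), |(y i.succ : ℝ)|)).and
          (hX.eventually_gt_atTop 1))).exists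
      have h2 : (y 0 : ℝ) * X t = -∑ i : Fin (d + 1), (y i.succ : ℝ) * β t i := by
        have h3 : ((y 0 * X t + ∑ i : Fin (d + 1), y i.succ * β t i : ℤ) : ℝ) = 0 := by
          rw [ht]; simp
        push_cast at h3
        linarith
      have h3 : |(X t : ℝ)| ≤ (∑ i : Fin (d + 1), |(y i.succ : ℝ)|) * |(X t : ℝ)| ^ δ := by
        calc |(X t : ℝ)| ≤ |(y 0 : ℝ)| * |(X t : ℝ)| := by
              have h4 : (1 : ℝ) ≤ |(y 0 : ℝ)| := by
                rw [← Int.cast_abs]; exact_mod_cast Int.one_le_abs hne0
              nlinarith [abs_nonneg (X t : ℝ)]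
          _ = |(y 0 : ℝ) * X t| := (abs_mul _ _).symm
          _ = |∑ i : Fin (d + 1), (y i.succ : ℝ) * β t i| := by rw [h2, abs_neg]
          _ ≤ ∑ i : Fin (d + 1), |(y i.succ : ℝ) * β t i| := Finset.abs_sum_le_sum_abs _ _
          _ ≤ ∑ i : Fin (d + 1), |(y i.succ : ℝ)| * |(X t : ℝ)| ^ δ := by
              refine Finset.sum_le_sum fun i _ => ?_
              rw [abs_mul]
              exact mul_le_mul_of_nonneg_left (hβ t i) (abs_nonneg _)
          _ = _ := by rw [Finset.sum_mul]
      have hXp : 0 < |(X t : ℝ)| := by linarith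
      have h4 : |(X t : ℝ)| ^ (1 - δ) ≤ ∑ i : Fin (d + 1), |(y i.succ : ℝ)| := by
        rw [Real.rpow_sub hXp, Real.rpow_one, div_le_iff₀ (Real.rpow_pos_of_pos hXp _)]
        exact h3
      linarith
    -- another coefficient does not
    obtain ⟨i0, hi0⟩ : ∃ i0 : Fin (d + 1), y i0.succ ≠ 0 := by
      by_contra hcon
      push Not at hcon
      apply hy0
      funext j
      induction j using Fin.cases with
      | zero => exact hy00
      | succ j => exact hcon j
    obtain ⟨φ, hφ, hφr⟩ := Filter.extraction_of_frequently_atTop hrel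
    have hφ' : ∀ t, y i0.succ * β (φ t) i0 =
        -∑ i : Fin d, y (i0.succAbove i).succ * β (φ t) (i0.succAbove i) := by
      intro t
      have h1 := hφr t
      rw [hy00, zero_mul, zero_add, Fin.sum_univ_succAbove _ i0] at h1
      linarith
    have hform : ∀ t v, y i0.succ * l v * X (φ t) + ∑ i : Fin d,
        (y i0.succ * lam v (i0.succAbove i) - lam v i0 * y (i0.succAbove i).succ) *
          β (φ t) (i0.succAbove i) =
        y i0.succ * (l v * X (φ t) + ∑ i, lam v i * β (φ t) i) := by
      intro t v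
      rw [Fin.sum_univ_succAbove (fun i => lam v i * β (φ t) i) i0]
      have h1 : ∑ i : Fin d, (y i0.succ * lam v (i0.succAbove i) -
          lam v i0 * y (i0.succAbove i).succ) * β (φ t) (i0.succAbove i) =
          y i0.succ * ∑ i : Fin d, lam v (i0.succAbove i) * β (φ t) (i0.succAbove i) -
          lam v i0 * ∑ i : Fin d, y (i0.succAbove i).succ * β (φ t) (i0.succAbove i) := by
        rw [Finset.mul_sum, Finset.mul_sum, ← Finset.sum_sub_distrib]
        refine Finset.sum_congr rfl fun i _ => ?_
        ring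
      rw [h1]
      have h2 := hφ' t
      linear_combination (-lam v i0) * h2
    refine ih γ δ hγ hδ (by nlinarith) hδ1 (fun v => y i0.succ * l v)
      (fun v => mul_ne_zero hi0 (hl v))
      (fun v i => y i0.succ * lam v (i0.succAbove i) - lam v i0 * y (i0.succAbove i).succ)
      (fun t => X (φ t)) (hX.comp hφ.tendsto_atTop) (fun t i => β (φ t) (i0.succAbove i))
      (fun t i => hβ _ _) ?_ ?_
    · intro t v
      show y i0.succ * l v * X (φ t) + _ ≠ 0
      rw [hform]
      exact mul_ne_zero hi0 (hne _ _)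
    · intro t
      refine (hsum (φ t)).trans (Finset.sum_le_sum fun v _ => ?_)
      have h1 : vp (b v) (l v * X (φ t) + ∑ i, lam v i * β (φ t) i) ≤
          vp (b v) (y i0.succ * l v * X (φ t) + ∑ i : Fin d,
            (y i0.succ * lam v (i0.succAbove i) - lam v i0 * y (i0.succAbove i).succ) *
            β (φ t) (i0.succAbove i)) := by
        rw [hform, vp_mul _ hi0 (hne _ _)]
        exact Nat.le_add_left _ _
      apply mul_le_mul_of_nonneg_right (by exact_mod_cast h1)
      exact Real.log_nonneg (by exact_mod_cast (hb v).one_le)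

end Pool.Agent.H977.SP
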