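import Mathlib
import Pool.Agent.H977.SP.Moving

set_option autoImplicit false

/-!
The `S`-parts of integers which are close to each other.
-/

open Finset Filter Topology

namespace Pool.Agent.H977.SP

theorem vp_close {p : ℕ} (hp : p.Prime) {F G : ℤ} (hF : F ≠ 0) (hG : G ≠ 0) (hne : F ≠ G)
    (hv : vp p F ≤ vp p G) : (vp p F : ℝ) * Real.log p ≤ Real.log |((F - G : ℤ) : ℝ)| := by
  rw [← Real.log_pow]
  apply Real.log_le_log (by have := hp.pos; positivity)
  have h1 : ((p ^ vp p F : ℕ) : ℤ) ∣ F := pow_vp_dvd p F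
  have h2 : ((p ^ vp p F : ℕ) : ℤ) ∣ G := by
    refine dvd_trans ?_ (pow_vp_dvd p G)
    exact_mod_cast Nat.pow_dvd_pow p hv
  have h3 := Int.le_of_dvd (abs_pos.2 (sub_ne_zero.2 hne)) ((dvd_abs _ _).2 (dvd_sub h1 h2))
  rw [← Int.cast_abs]
  exact_mod_cast h3

/-- **The product of the `S`-parts of different integers close to `X` is at most `X ^ (1 + ε)`.** -/
theorem windows {s : ℕ} (b : Fin s → ℕ) (hb : ∀ v, (b v).Prime) (hinj : Function.Injective b)
    (m : ℕ) (ε : ℝ) (hε : 0 < ε) :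
    ∃ δ : ℝ, 0 < δ ∧ ∃ X₀ : ℝ, ∀ X : ℤ, X₀ ≤ |(X : ℝ)| → ∀ F : Fin m → ℤ, (∀ j, F j ≠ 0) →
      Function.Injective F → (∀ j, |((F j - X : ℤ) : ℝ)| ≤ |(X : ℝ)| ^ δ) →
      ∑ j, ∑ v, (vp (b v) (F j) : ℝ) * Real.log (b v) ≤ (1 + ε) * Real.log |(X : ℝ)| := by
  set δ : ℝ := min (1 / 2) (ε / (4 * ((m : ℝ) + 1) * (s + 1))) with hδdef
  have hden : (0 : ℝ) < 4 * ((m : ℝ) + 1) * (s + 1) := by positivity
  have hδ0 : 0 < δ := lt_min (by norm_num) (by positivity)
  have hδ1 : δ < 1 := lt_of_le_of_lt (min_le_left _ _) (by norm_num)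
  have hδε : δ * (4 * ((m : ℝ) + 1) * (s + 1)) ≤ ε := by
    rw [← le_div_iff₀ hden]; exact min_le_right _ _
  have hms : (s : ℝ) * m * δ ≤ ε / 4 := by
    have h1 : 0 ≤ (s : ℝ) * δ := by positivity
    have h2 : 0 ≤ (m : ℝ) * δ := by positivity
    nlinarith
  have hm : (m : ℝ) * δ < ε / 2 := by
    have h1 : 0 ≤ (s : ℝ) * δ := by positivity
    have h2 : 0 ≤ (m : ℝ) * δ := by positivity
    have h3 : 0 ≤ (s : ℝ) * m * δ := by positivity
    nlinarith
  refine ⟨δ, hδ0, ?_⟩
  by_contra hcon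
  push Not at hcon
  choose X hX F hF hFinj hclose hbad using fun t : ℕ => hcon (t : ℝ)
  have hXt : Tendsto (fun t => |(X t : ℝ)|) atTop atTop :=
    tendsto_atTop_mono hX tendsto_natCast_atTop_atTop
  have hlog := Real.tendsto_log_atTop.comp hXt
  rcases Nat.eq_zero_or_pos m with hm0 | hm0
  · subst hm0
    have h1 := hbad 1
    simp only [Finset.univ_eq_empty, Finset.sum_empty] at h1
    have h2 : 0 ≤ Real.log |(X 1 : ℝ)| := Real.log_nonneg (by simpa using hX 1)
    nlinarith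
  have hmne : Nonempty (Fin m) := ⟨⟨0, hm0⟩⟩
  have hmax : ∀ (t : ℕ) (v : Fin s), ∃ j : Fin m, ∀ i, vp (b v) (F t i) ≤ vp (b v) (F t j) :=
    fun t v => Finite.exists_max (fun i => vp (b v) (F t i))
  choose J hJ using hmax
  obtain ⟨j, hj⟩ := Finite.exists_infinite_fiber J
  have hfreq : ∃ᶠ t in atTop, J t = j := by
    rw [Nat.frequently_atTop_iff_infinite]
    exact Set.infinite_coe_iff.1 hj
  obtain ⟨φ, hφ, hφr⟩ := Filter.extraction_of_frequently_atTop (hfreq.and_eventually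
    ((hlog.eventually_ge_atTop ((s : ℝ) * m * Real.log 2 * (4 / ε))).and
      (hXt.eventually_ge_atTop 1)))
  have hform : ∀ t v, 1 * X (φ t) + ∑ i, (if i = j v then (1 : ℤ) else 0) * (F (φ t) i - X (φ t)) =
      F (φ t) (j v) := by
    intro t v
    simp
  refine moving b hb hinj m (ε / 2) δ (by positivity) hδ0.le hm hδ1 (fun _ => 1)
    (fun _ => one_ne_zero) (fun v i => if i = j v then 1 else 0) (fun t => X (φ t))
    (hXt.comp hφ.tendsto_atTop) (fun t i => F (φ t) i - X (φ t)) (fun t i => hclose _ _) ?_ ?_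
  · intro t v
    rw [hform]
    exact hF _ _
  · intro t
    obtain ⟨hJt, hbig, hX1⟩ := hφr t
    have hbig' : (s : ℝ) * m * Real.log 2 * (4 / ε) ≤ Real.log |(X (φ t) : ℝ)| := hbig
    simp only [hform]
    set N := Real.log |(X (φ t) : ℝ)| with hN
    have hN0 : 0 ≤ N := Real.log_nonneg hX1
    have hX0 : 0 < |(X (φ t) : ℝ)| := by linarith
    have h1 : ∀ v : Fin s, ∀ i : Fin m, i ≠ j v →
        (vp (b v) (F (φ t) i) : ℝ) * Real.log (b v) ≤ Real.log 2 + δ * N := by
      intro v i hi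
      have hne : F (φ t) i ≠ F (φ t) (j v) := fun h => hi (hFinj _ h)
      have hle : vp (b v) (F (φ t) i) ≤ vp (b v) (F (φ t) (j v)) := by
        rw [← hJt]; exact hJ _ _ _
      refine (vp_close (hb v) (hF _ _) (hF _ _) hne hle).trans ?_
      have h2 : |((F (φ t) i - F (φ t) (j v) : ℤ) : ℝ)| ≤ 2 * |(X (φ t) : ℝ)| ^ δ := by
        have e1 : ((F (φ t) i - F (φ t) (j v) : ℤ) : ℝ) =
            ((F (φ t) i - X (φ t) : ℤ) : ℝ) - ((F (φ t) (j v) - X (φ t) : ℤ) : ℝ) := by
          push_cast; ring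
        rw [e1]
        refine (abs_sub _ _).trans ?_
        linarith [hclose (φ t) i, hclose (φ t) (j v)]
      have h3 : 0 < |((F (φ t) i - F (φ t) (j v) : ℤ) : ℝ)| :=
        abs_pos.2 (by exact_mod_cast sub_ne_zero.2 hne)
      have h4 := Real.log_le_log h3 h2
      rw [Real.log_mul (by norm_num) (Real.rpow_pos_of_pos hX0 _).ne', Real.log_rpow hX0] at h4
      exact h4
    have h2 : ∑ i, ∑ v, (vp (b v) (F (φ t) i) : ℝ) * Real.log (b v) ≤
        ∑ v, (vp (b v) (F (φ t) (j v)) : ℝ) * Real.log (b v) + s * m * (Real.log 2 + δ * N) := by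
      rw [Finset.sum_comm]
      have h3 : ∀ v : Fin s, ∑ i, (vp (b v) (F (φ t) i) : ℝ) * Real.log (b v) ≤
          (vp (b v) (F (φ t) (j v)) : ℝ) * Real.log (b v) + m * (Real.log 2 + δ * N) := by
        intro v
        rw [← Finset.add_sum_erase _ _ (Finset.mem_univ (j v))]
        have h4 : ∑ i ∈ Finset.univ.erase (j v), (vp (b v) (F (φ t) i) : ℝ) * Real.log (b v) ≤
            ∑ _i ∈ Finset.univ.erase (j v), (Real.log 2 + δ * N) :=
          Finset.sum_le_sum fun i hi => h1 v i (Finset.ne_of_mem_erase hi)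
        rw [Finset.sum_const, nsmul_eq_mul] at h4
        have h5 : ((Finset.univ.erase (j v)).card : ℝ) ≤ m := by
          have := Finset.card_le_card (Finset.erase_subset (j v) Finset.univ)
          rw [Finset.card_univ, Fintype.card_fin] at this
          exact_mod_cast this
        have h6 : 0 ≤ Real.log 2 + δ * N := by
          have := Real.log_nonneg (show (1 : ℝ) ≤ 2 by norm_num)
          positivity
        nlinarith
      refine (Finset.sum_le_sum fun v _ => h3 v).trans (le_of_eq ?_)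
      rw [Finset.sum_add_distrib, Finset.sum_const, Finset.card_univ, Fintype.card_fin,
        nsmul_eq_mul]
      ring
    have h3 := hbad (φ t)
    have h4 : (s : ℝ) * m * Real.log 2 ≤ ε / 4 * N := by
      have h5 := mul_le_mul_of_nonneg_left hbig' (show 0 ≤ ε / 4 by positivity)
      have h6 : ε / 4 * ((s : ℝ) * m * Real.log 2 * (4 / ε)) = s * m * Real.log 2 := by
        field_simp
      linarith
    have h5 : (s : ℝ) * m * (Real.log 2 + δ * N) ≤ ε / 4 * N + ε / 4 * N := by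
      have h6 : (s : ℝ) * m * (Real.log 2 + δ * N) = s * m * Real.log 2 + (s * m * δ) * N := by ring
      rw [h6]
      have := mul_le_mul_of_nonneg_right hms hN0
      linarith
    have h6 : (1 + ε) * N < ∑ i, ∑ v, (vp (b v) (F (φ t) i) : ℝ) * Real.log (b v) := h3
    linarith

end Pool.Agent.H977.SP
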