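import Mathlib
import Pool.Agent.H977.SP.Windows

set_option autoImplicit false

/-!
The `S`-parts of the odd terms of the trajectories of Collatz type maps.
-/

open Finset Filter Topology

namespace Pool.Agent.H977.SP

/-- the map `x / 2` (`x` even), `(a x + b) / 2 ^ r` (`x` odd) -/
def G (a b : ℤ) (r : ℕ) (x : ℤ) : ℤ := if x % 2 = 0 then x / 2 else (a * x + b) / 2 ^ r

section

variable {a b : ℤ} {r : ℕ} (ha : a % 2 = 1) (hb : b % 2 = 1) (hr : r ≤ 1)

theorem G_even {x : ℤ} (h : x % 2 = 0) : 2 * G a b r x = x := by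
  unfold G; rw [if_pos h]; omega

include ha hb hr in
theorem G_odd {x : ℤ} (h : x % 2 = 1) : 2 ^ r * G a b r x = a * x + b := by
  unfold G; rw [if_neg (by omega)]
  apply Int.mul_ediv_cancel'
  have h1 : (2 : ℤ) ∣ a * x + b := by
    have h2 : (a * x) % 2 = 1 := by rw [Int.mul_emod, ha, h]; norm_num
    omega
  interval_cases r
  · simp
  · simpa using h1

variable (a b r) in
/-- the number of odd terms before time `n` -/
def kk (x : ℤ) : ℕ → ℕ
  | 0 => 0
  | n + 1 => kk x n + if (G a b r)^[n] x % 2 = 0 then 0 else 1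

variable (a b r) in
/-- the number of halvings before time `n` -/
def hh (x : ℤ) : ℕ → ℕ
  | 0 => 0
  | n + 1 => hh x n + if (G a b r)^[n] x % 2 = 0 then 1 else r

include hr in
theorem hh_le (x : ℤ) (n : ℕ) : hh a b r x n ≤ n := by
  induction n with
  | zero => exact le_rfl
  | succ n ih =>
    rw [hh]
    split_ifs <;> omega

theorem kk_mono (x : ℤ) {i n : ℕ} (h : i ≤ n) :
    kk a b r x i ≤ kk a b r x n ∧ kk a b r x n - kk a b r x i ≤ n - i := by
  induction n, h using Nat.le_induction with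
  | base => simp
  | succ n h ih =>
    rw [kk]
    split_ifs <;> omega

theorem hh_mono (x : ℤ) {i n : ℕ} (h : i ≤ n) : hh a b r x i ≤ hh a b r x n := by
  induction n, h using Nat.le_induction with
  | base => exact le_rfl
  | succ n h ih =>
    rw [hh]
    omega

include ha hb hr in
theorem form (x : ℤ) (n : ℕ) : ∃ c : ℤ,
    2 ^ (hh a b r x n) * (G a b r)^[n] x = a ^ (kk a b r x n) * x + c ∧
      |c| ≤ |b| * (|a| + 2) ^ n := by
  induction n with
  | zero => exact ⟨0, by simp [hh, kk], by simp⟩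
  | succ n ih =>
    obtain ⟨c, h1, h2⟩ := ih
    rw [Function.iterate_succ_apply', hh, kk]
    have ha0 : (0 : ℤ) ≤ |a| := abs_nonneg a
    have hb0 : (0 : ℤ) ≤ |b| := abs_nonneg b
    rcases Int.emod_two_eq_zero_or_one ((G a b r)^[n] x) with he | ho
    · rw [if_pos he, if_pos he, add_zero]
      refine ⟨c, ?_, h2.trans ?_⟩
      · rw [← h1, pow_succ]
        have := G_even (a := a) (b := b) (r := r) he
        linear_combination (2 : ℤ) ^ (hh a b r x n) * this
      · apply mul_le_mul_of_nonneg_left _ hb0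
        exact pow_le_pow_right₀ (by omega) (Nat.le_succ n)
    · rw [if_neg (by omega), if_neg (by omega)]
      refine ⟨a * c + 2 ^ (hh a b r x n) * b, ?_, ?_⟩
      · rw [pow_add, pow_succ]
        have := G_odd ha hb hr ho
        linear_combination (2 : ℤ) ^ (hh a b r x n) * this + a * h1
      · have h3 : |a * c + 2 ^ (hh a b r x n) * b| ≤ |a| * |c| + 2 ^ (hh a b r x n) * |b| := by
          refine (abs_add_le _ _).trans ?_
          rw [abs_mul, abs_mul, abs_of_pos (by positivity : (0 : ℤ) < 2 ^ _)]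
        have h4 : (2 : ℤ) ^ (hh a b r x n) ≤ (|a| + 2) ^ n := by
          calc (2 : ℤ) ^ (hh a b r x n) ≤ 2 ^ n :=
                pow_le_pow_right₀ (by norm_num) (hh_le hr x n)
            _ ≤ (|a| + 2) ^ n := pow_le_pow_left₀ (by norm_num) (by omega) n
        calc |a * c + 2 ^ (hh a b r x n) * b| ≤ |a| * |c| + 2 ^ (hh a b r x n) * |b| := h3
          _ ≤ |a| * (|b| * (|a| + 2) ^ n) + (|a| + 2) ^ n * |b| := by gcongr
          _ ≤ |b| * (|a| + 2) ^ (n + 1) := by
              rw [pow_succ]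
              have : 0 ≤ |b| * (|a| + 2) ^ n := by positivity
              nlinarith

include ha hb hr in
theorem hh_lt (x : ℤ) {i j : ℕ} (hij : i < j) (hi : (G a b r)^[i] x % 2 = 1)
    (hj : (G a b r)^[j] x % 2 = 1) : hh a b r x i < hh a b r x j := by
  have h1 := hh_mono (a := a) (b := b) (r := r) x (Nat.succ_le_of_lt hij)
  have h2 : hh a b r x (i + 1) = hh a b r x i + r := by rw [hh, if_neg (by omega)]
  rw [Nat.succ_eq_add_one, h2] at h1
  rcases Nat.eq_zero_or_pos r with h0 | h0
  · subst h0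
    have h3 := G_odd (r := 0) ha hb (by norm_num) hi
    rw [pow_zero, one_mul, ← Function.iterate_succ_apply' (G a b 0)] at h3
    have h4 : (G a b 0)^[i + 1] x % 2 = 0 := by
      have h5 : (a * (G a b 0)^[i] x) % 2 = 1 := by rw [Int.mul_emod, ha, hi]; norm_num
      rw [Nat.succ_eq_add_one] at h3
      omega
    have h5 : i + 1 ≠ j := by rintro rfl; omega
    have h6 := hh_mono (a := a) (b := b) (r := 0) x (show i + 1 + 1 ≤ j by omega)
    rw [hh, if_pos h4, h2] at h6
    omega
  · omega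

include ha hb hr in
/-- lower bound for the terms -/
theorem lower (x : ℤ) (i : ℕ) : |x| ≤ 2 ^ i * (|(G a b r)^[i] x| + |b|) := by
  have ha1 : 1 ≤ |a| := Int.one_le_abs (by rintro rfl; omega)
  induction i with
  | zero =>
    have := abs_nonneg b
    simp only [pow_zero, one_mul, Function.iterate_zero, id]
    linarith
  | succ i ih =>
    refine ih.trans ?_
    rw [Function.iterate_succ_apply', pow_succ, mul_assoc]
    apply mul_le_mul_of_nonneg_left _ (by positivity)
    set y := (G a b r)^[i] x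
    have hb0 := abs_nonneg b
    have hG := abs_nonneg (G a b r y)
    rcases Int.emod_two_eq_zero_or_one y with he | ho
    · have h1 := G_even (a := a) (b := b) (r := r) he
      have h2 : |y| = 2 * |G a b r y| := by
        conv_lhs => rw [← h1, abs_mul, abs_two]
      linarith
    · have h1 := G_odd ha hb hr ho
      have h2 : |a| * |y| ≤ 2 ^ r * |G a b r y| + |b| := by
        rw [← abs_mul]
        have h3 : a * y = 2 ^ r * G a b r y - b := by linarith
        rw [h3]
        refine (abs_sub _ _).trans ?_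
        rw [abs_mul, abs_of_pos (by positivity : (0 : ℤ) < 2 ^ r)]
      have h3 : (2 : ℤ) ^ r ≤ 2 := by
        calc (2 : ℤ) ^ r ≤ 2 ^ 1 := pow_le_pow_right₀ (by norm_num) hr
          _ = 2 := by norm_num
      have h4 : |y| ≤ |a| * |y| := by
        have := abs_nonneg y
        nlinarith
      have h5 : 2 ^ r * |G a b r y| ≤ 2 * |G a b r y| := mul_le_mul_of_nonneg_right h3 hG
      linarith

include ha hb hr in
/-- the integers with different powers of two -/
theorem parts (x : ℤ) (n : ℕ) : ∃ X : ℤ, ∃ F : ℕ → ℤ,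
    |x| ≤ |X| ∧ |X| ≤ (|a| + 2) ^ n * |x| ∧
    (∀ i ≤ n, |F i - X| ≤ |b| * (|a| + 2) ^ n) ∧
    (∀ i ≤ n, (G a b r)^[i] x % 2 = 1 → F i ≠ 0 ∧ (G a b r)^[i] x ∣ F i) ∧
    (∀ i ≤ n, ∀ j ≤ n, (G a b r)^[i] x % 2 = 1 → (G a b r)^[j] x % 2 = 1 → F i = F j → i = j) := by
  have ha1 : 1 ≤ |a| := Int.one_le_abs (by rintro rfl; omega)
  have ha0 : a ≠ 0 := by rintro rfl; omega
  set K := kk a b r x n with hK
  have hKn : K ≤ n := by
    have := (kk_mono (a := a) (b := b) (r := r) x (Nat.zero_le n)).2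
    rw [kk] at this
    omega
  refine ⟨a ^ K * x, fun i => a ^ (K - kk a b r x i) * (2 ^ (hh a b r x i) * (G a b r)^[i] x),
    ?_, ?_, ?_, ?_, ?_⟩
  · rw [abs_mul, abs_pow]
    have h1 : 1 ≤ |a| ^ K := one_le_pow₀ ha1
    have := abs_nonneg x
    nlinarith
  · rw [abs_mul, abs_pow]
    apply mul_le_mul_of_nonneg_right _ (abs_nonneg x)
    calc |a| ^ K ≤ (|a| + 2) ^ K := pow_le_pow_left₀ (abs_nonneg a) (by omega) K
      _ ≤ (|a| + 2) ^ n := pow_le_pow_right₀ (by omega) hKn
  · intro i hi
    obtain ⟨c, h1, h2⟩ := form ha hb hr x i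
    obtain ⟨h3, h4⟩ := kk_mono (a := a) (b := b) (r := r) x hi
    beta_reduce
    rw [h1]
    have h5 : a ^ (K - kk a b r x i) * (a ^ (kk a b r x i) * x + c) - a ^ K * x =
        a ^ (K - kk a b r x i) * c := by
      have h6 : a ^ K = a ^ (K - kk a b r x i) * a ^ (kk a b r x i) := by
        rw [← pow_add, Nat.sub_add_cancel h3]
      rw [h6]; ring
    rw [h5, abs_mul, abs_pow]
    have h7 : |a| ^ (K - kk a b r x i) ≤ (|a| + 2) ^ (n - i) :=
      calc |a| ^ (K - kk a b r x i) ≤ (|a| + 2) ^ (K - kk a b r x i) :=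
            pow_le_pow_left₀ (abs_nonneg a) (by omega) _
        _ ≤ (|a| + 2) ^ (n - i) := pow_le_pow_right₀ (by omega) h4
    calc |a| ^ (K - kk a b r x i) * |c| ≤ (|a| + 2) ^ (n - i) * (|b| * (|a| + 2) ^ i) := by
          gcongr
      _ = |b| * ((|a| + 2) ^ (n - i) * (|a| + 2) ^ i) := by ring
      _ = |b| * (|a| + 2) ^ n := by rw [← pow_add, Nat.sub_add_cancel hi]
  · intro i _ ho
    refine ⟨?_, ?_⟩
    · apply mul_ne_zero (pow_ne_zero _ ha0)
      apply mul_ne_zero (by positivity)
      intro h; omega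
    · exact Dvd.dvd.mul_left (Dvd.dvd.mul_left dvd_rfl _) _
  · -- injectivity
    have key : ∀ i j, i < j → (G a b r)^[i] x % 2 = 1 → (G a b r)^[j] x % 2 = 1 →
        a ^ (K - kk a b r x i) * (2 ^ (hh a b r x i) * (G a b r)^[i] x) ≠
        a ^ (K - kk a b r x j) * (2 ^ (hh a b r x j) * (G a b r)^[j] x) := by
      intro i j hij hi hj h
      have h1 := hh_lt ha hb hr x hij hi hj
      obtain ⟨e, he⟩ := Nat.exists_eq_add_of_lt h1
      rw [he, add_assoc, pow_add (2 : ℤ) (hh a b r x i)] at h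
      have h2 : (2 : ℤ) ^ (hh a b r x i) ≠ 0 := by positivity
      have h3 : a ^ (K - kk a b r x i) * (G a b r)^[i] x =
          2 * (2 ^ e * (a ^ (K - kk a b r x j) * (G a b r)^[j] x)) := by
        apply mul_left_cancel₀ h2
        rw [pow_succ] at h
        linear_combination h
      have h4 : (a ^ (K - kk a b r x i) * (G a b r)^[i] x) % 2 = 1 := by
        have h5 : a ^ (K - kk a b r x i) % 2 = 1 := Int.odd_iff.1 ((Int.odd_iff.2 ha).pow)
        rw [Int.mul_emod, h5, hi]; norm_num
      omega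
    intro i _ j _ ho1 ho2 h
    rcases Nat.lt_trichotomy i j with h1 | h1 | h1
    · exact absurd h (key i j h1 ho1 ho2)
    · exact h1
    · exact absurd h.symm (key j i h1 ho2 ho1)

end

end Pool.Agent.H977.SP
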