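import Mathlib
import Pool.Agent.H977.SP.Traj

set_option autoImplicit false

/-!
Large `S`-parts in trajectories, cycles and unbounded trajectories of Collatz type maps.
-/

open Finset Filter Topology

namespace Pool.Agent.H977.SP

/-- the part of `x` composed of the primes in `S` -/
def sPart (S : Finset ℕ) (x : ℤ) : ℕ := ∏ p ∈ S, p ^ (x.natAbs.factorization p)

theorem exists_places (S : Finset ℕ) : ∃ (s : ℕ) (b : Fin s → ℕ), (∀ v, (b v).Prime) ∧
    Function.Injective b ∧ ∀ x : ℤ, Real.log (sPart S x) = ∑ v, (vp (b v) x : ℝ) * Real.log (b v) := by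
  classical
  set P := S.filter Nat.Prime with hP
  refine ⟨P.card, fun v => P.orderEmbOfFin rfl v, ?_, (P.orderEmbOfFin rfl).injective, ?_⟩
  · intro v
    exact (Finset.mem_filter.1 (P.orderEmbOfFin_mem rfl v)).2
  · intro x
    have h1 : sPart S x = ∏ p ∈ P, p ^ (x.natAbs.factorization p) := by
      unfold sPart
      rw [hP, Finset.prod_filter]
      refine Finset.prod_congr rfl fun p _ => ?_
      split_ifs with hp
      · rfl
      · rw [Nat.factorization_eq_zero_of_not_prime _ hp, pow_zero]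
    have h2 : Real.log (sPart S x) = ∑ p ∈ P, (vp p x : ℝ) * Real.log p := by
      rw [h1]
      push_cast
      rw [Real.log_prod (fun p hp => by
        have := (Finset.mem_filter.1 hp).2.pos
        positivity)]
      exact Finset.sum_congr rfl fun p _ => Real.log_pow _ _
    rw [h2, ← Finset.sum_coe_sort P]
    exact (Equiv.sum_comp (P.orderIsoOfFin rfl).toEquiv
      (fun p : {p // p ∈ P} => (vp (p : ℕ) x : ℝ) * Real.log (p : ℕ))).symm

theorem vp_mono {p : ℕ} {z F : ℤ} (hF : F ≠ 0) (h : z ∣ F) : vp p z ≤ vp p F := by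
  have hz : z ≠ 0 := by rintro rfl; exact hF (zero_dvd_iff.1 h)
  exact (Nat.factorization_le_iff_dvd (Int.natAbs_ne_zero.2 hz) (Int.natAbs_ne_zero.2 hF)).2
    (Int.natAbs_dvd_natAbs.2 h) p

variable {a b : ℤ} {r : ℕ} (ha : a % 2 = 1) (hb : b % 2 = 1) (hr : r ≤ 1)

include ha hb hr in
/-- **The product of the `S`-parts of `m` odd terms of a short piece of a trajectory.** -/
theorem traj_windows (S : Finset ℕ) (m : ℕ) (ε : ℝ) (hε : 0 < ε) :
    ∃ c : ℝ, 0 < c ∧ ∃ x₀ : ℝ, ∀ x : ℤ, x₀ ≤ |(x : ℝ)| → ∀ n : ℕ,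
      (n : ℝ) ≤ c * Real.log |(x : ℝ)| → ∀ I : Finset ℕ, I.card = m →
      (∀ i ∈ I, i ≤ n ∧ (G a b r)^[i] x % 2 = 1) →
      ∑ i ∈ I, Real.log (sPart S ((G a b r)^[i] x)) ≤ (1 + ε) * Real.log |(x : ℝ)| := by
  obtain ⟨s, q, hq, hinj, hlog⟩ := exists_places S
  obtain ⟨δ, hδ, X₀, hW⟩ := windows q hq hinj m (ε / 2) (by positivity)
  have hb0 : b ≠ 0 := by rintro rfl; omega
  set A : ℝ := Real.log (|(a : ℝ)| + 2) with hA
  have hA0 : 0 < A := Real.log_pos (by have := abs_nonneg (a : ℝ); linarith)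
  have hbR : (1 : ℝ) ≤ |(b : ℝ)| := by rw [← Int.cast_abs]; exact_mod_cast Int.one_le_abs hb0
  set κ : ℝ := min (δ / 4) (ε / (4 * (1 + ε))) with hκ
  have hκ0 : 0 < κ := lt_min (by positivity) (by positivity)
  refine ⟨κ / A, by positivity, max 1 (max X₀ (Real.exp (2 / δ * Real.log |(b : ℝ)|))), ?_⟩
  intro x hx n hn I hI hodd
  have hx1 : 1 ≤ |(x : ℝ)| := (le_max_left _ _).trans hx
  have hx2 : X₀ ≤ |(x : ℝ)| := (le_max_left _ _).trans ((le_max_right _ _).trans hx)
  have hx3 : Real.exp (2 / δ * Real.log |(b : ℝ)|) ≤ |(x : ℝ)| :=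
    (le_max_right _ _).trans ((le_max_right _ _).trans hx)
  set L := Real.log |(x : ℝ)| with hL
  have hL0 : 0 ≤ L := Real.log_nonneg hx1
  have hbL : Real.log |(b : ℝ)| ≤ δ / 2 * L := by
    have h1 : 2 / δ * Real.log |(b : ℝ)| ≤ L := (Real.le_log_iff_exp_le (by linarith)).2 hx3
    have h2 := mul_le_mul_of_nonneg_left h1 (show 0 ≤ δ / 2 by positivity)
    have h3 : δ / 2 * (2 / δ * Real.log |(b : ℝ)|) = Real.log |(b : ℝ)| := by field_simp
    linarith
  have hnA : (n : ℝ) * A ≤ κ * L := by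
    have h1 := mul_le_mul_of_nonneg_right hn hA0.le
    have h2 : κ / A * L * A = κ * L := by field_simp
    linarith
  obtain ⟨X, F, h1, h2, h3, h4, h5⟩ := parts ha hb hr x n
  have h1R : |(x : ℝ)| ≤ |(X : ℝ)| := by
    rw [← Int.cast_abs, ← Int.cast_abs]; exact_mod_cast h1
  have hX1 : 1 ≤ |(X : ℝ)| := hx1.trans h1R
  have hXlog : Real.log |(X : ℝ)| ≤ (1 + κ) * L := by
    have h6 : |(X : ℝ)| ≤ (|(a : ℝ)| + 2) ^ n * |(x : ℝ)| := by
      rw [← Int.cast_abs, ← Int.cast_abs, ← Int.cast_abs]; exact_mod_cast h2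
    have h7 := Real.log_le_log (by linarith) h6
    rw [Real.log_mul (by positivity) (by positivity), Real.log_pow] at h7
    have : (n : ℝ) * A ≤ κ * L := hnA
    linarith
  have hclose : ∀ i ≤ n, |((F i - X : ℤ) : ℝ)| ≤ |(X : ℝ)| ^ δ := by
    intro i hi
    have h6 : |((F i - X : ℤ) : ℝ)| ≤ |(b : ℝ)| * (|(a : ℝ)| + 2) ^ n := by
      rw [← Int.cast_abs, ← Int.cast_abs, ← Int.cast_abs]; exact_mod_cast h3 i hi
    refine h6.trans ?_
    have h7 : |(b : ℝ)| * (|(a : ℝ)| + 2) ^ n = Real.exp (Real.log |(b : ℝ)| + n * A) := by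
      rw [Real.exp_add, Real.exp_log (by linarith), Real.exp_nat_mul,
        Real.exp_log (by have := abs_nonneg (a : ℝ); linarith)]
    have h8 : |(X : ℝ)| ^ δ = Real.exp (δ * Real.log |(X : ℝ)|) := by
      rw [Real.rpow_def_of_pos (by linarith), mul_comm]
    rw [h7, h8]
    apply Real.exp_le_exp.2
    have h9 : L ≤ Real.log |(X : ℝ)| := Real.log_le_log (by linarith) h1R
    have h10 : κ ≤ δ / 4 := min_le_left _ _
    have h11 : κ * L ≤ δ / 4 * L := mul_le_mul_of_nonneg_right h10 hL0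
    have h12 : δ * L ≤ δ * Real.log |(X : ℝ)| := mul_le_mul_of_nonneg_left h9 hδ.le
    nlinarith
  -- the enumeration of `I`
  set e := I.orderIsoOfFin hI with he
  have hemem : ∀ j, ((e j : ℕ)) ∈ I := fun j => (e j).2
  have hmain := hW X (hx2.trans h1R) (fun j => F (e j))
    (fun j => (h4 _ (hodd _ (hemem j)).1 (hodd _ (hemem j)).2).1)
    (by
      intro j j' h
      have h6 := h5 _ (hodd _ (hemem j)).1 _ (hodd _ (hemem j')).1 (hodd _ (hemem j)).2
        (hodd _ (hemem j')).2 h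
      exact e.injective (Subtype.ext h6))
    (fun j => hclose _ (hodd _ (hemem j)).1)
  have h6 : ∑ i ∈ I, Real.log (sPart S ((G a b r)^[i] x)) =
      ∑ j : Fin m, Real.log (sPart S ((G a b r)^[(e j : ℕ)] x)) := by
    rw [← Finset.sum_coe_sort I]
    exact (Equiv.sum_comp e.toEquiv
      (fun i : {i // i ∈ I} => Real.log (sPart S ((G a b r)^[(i : ℕ)] x)))).symm
  rw [h6]
  have h7 : ∑ j : Fin m, Real.log (sPart S ((G a b r)^[(e j : ℕ)] x)) ≤
      ∑ j : Fin m, ∑ v, (vp (q v) (F (e j)) : ℝ) * Real.log (q v) := by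
    refine Finset.sum_le_sum fun j _ => ?_
    rw [hlog]
    refine Finset.sum_le_sum fun v _ => ?_
    apply mul_le_mul_of_nonneg_right _ (Real.log_nonneg (by exact_mod_cast (hq v).one_le))
    obtain ⟨h8, h9⟩ := h4 _ (hodd _ (hemem j)).1 (hodd _ (hemem j)).2
    exact_mod_cast vp_mono h8 h9
  refine h7.trans (hmain.trans ?_)
  have h8 : κ ≤ ε / (4 * (1 + ε)) := min_le_right _ _
  have h9 : κ * (4 * (1 + ε)) ≤ ε := by rwa [le_div_iff₀ (by positivity)] at h8
  have h10 : (1 + ε / 2) * (1 + κ) ≤ 1 + ε := by nlinarith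
  calc (1 + ε / 2) * Real.log |(X : ℝ)| ≤ (1 + ε / 2) * ((1 + κ) * L) :=
        mul_le_mul_of_nonneg_left hXlog (by positivity)
    _ = ((1 + ε / 2) * (1 + κ)) * L := by ring
    _ ≤ (1 + ε) * L := mul_le_mul_of_nonneg_right h10 hL0

/-- `z` is odd and its `S`-part is at least `|z| ^ η` -/
def Large (S : Finset ℕ) (η : ℝ) (z : ℤ) : Prop := z % 2 = 1 ∧ |(z : ℝ)| ^ η ≤ sPart S z

open Classical in
include ha hb hr in
/-- the number of odd terms with a large `S`-part in a short piece of a trajectory -/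
theorem traj_count (S : Finset ℕ) (η : ℝ) (hη : 0 < η) :
    ∃ c : ℝ, 0 < c ∧ ∃ x₀ : ℝ, ∀ x : ℤ, x₀ ≤ |(x : ℝ)| → ∀ n : ℕ,
      (n : ℝ) ≤ c * Real.log |(x : ℝ)| →
      η * (((range (n + 1)).filter fun i => Large S η ((G a b r)^[i] x)).card : ℝ) ≤ 1 := by
  set m := ⌊1 / η⌋₊ + 1 with hm
  have hmη : 1 < η * m := by
    have h1 := Nat.lt_floor_add_one (1 / η)
    rw [div_lt_iff₀ hη] at h1
    rw [hm]; push_cast
    linarith
  set κ : ℝ := η * m - 1 with hκ
  have hκ0 : 0 < κ := by linarith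
  obtain ⟨c, hc, x₁, hW⟩ := traj_windows ha hb hr S m (κ / 4) (by positivity)
  set τ : ℝ := κ / (4 * (1 + κ)) with hτ
  have hτ0 : 0 < τ := by positivity
  have hb0 : b ≠ 0 := by rintro rfl; omega
  have hbR : (1 : ℝ) ≤ |(b : ℝ)| := by rw [← Int.cast_abs]; exact_mod_cast Int.one_le_abs hb0
  have hlog2 : 0 < Real.log 2 := Real.log_pos (by norm_num)
  refine ⟨min c (τ / (4 * Real.log 2)), lt_min hc (by positivity),
    max 1 (max x₁ (Real.exp (4 / τ * (Real.log 2 + Real.log |(b : ℝ)|)))), ?_⟩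
  intro x hx n hn
  have hx1 : 1 ≤ |(x : ℝ)| := (le_max_left _ _).trans hx
  have hx2 : x₁ ≤ |(x : ℝ)| := (le_max_left _ _).trans ((le_max_right _ _).trans hx)
  have hx3 : Real.exp (4 / τ * (Real.log 2 + Real.log |(b : ℝ)|)) ≤ |(x : ℝ)| :=
    (le_max_right _ _).trans ((le_max_right _ _).trans hx)
  set L := Real.log |(x : ℝ)| with hL
  have hL0 : 0 ≤ L := Real.log_nonneg hx1
  have hlb0 : 0 ≤ Real.log |(b : ℝ)| := Real.log_nonneg hbR
  have hbL : Real.log 2 + Real.log |(b : ℝ)| ≤ τ / 4 * L := by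
    have h1 : 4 / τ * (Real.log 2 + Real.log |(b : ℝ)|) ≤ L :=
      (Real.le_log_iff_exp_le (by linarith)).2 hx3
    have h2 := mul_le_mul_of_nonneg_left h1 (show 0 ≤ τ / 4 by positivity)
    have h3 : τ / 4 * (4 / τ * (Real.log 2 + Real.log |(b : ℝ)|)) =
        Real.log 2 + Real.log |(b : ℝ)| := by field_simp
    linarith
  have hn1 : (n : ℝ) ≤ c * L := hn.trans (mul_le_mul_of_nonneg_right (min_le_left _ _) hL0)
  have hn2 : (n : ℝ) * Real.log 2 ≤ τ / 4 * L := by
    have h1 : (n : ℝ) ≤ τ / (4 * Real.log 2) * L :=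
      hn.trans (mul_le_mul_of_nonneg_right (min_le_right _ _) hL0)
    have h2 := mul_le_mul_of_nonneg_right h1 hlog2.le
    have h3 : τ / (4 * Real.log 2) * L * Real.log 2 = τ / 4 * L := by field_simp
    linarith
  -- lower bound for the terms
  have hτ1 : τ < 1 := by rw [hτ, div_lt_one (by positivity)]; linarith
  have hlow : ∀ i ≤ n, (1 - τ) * L ≤ Real.log |(((G a b r)^[i] x : ℤ) : ℝ)| := by
    intro i hi
    set z := (G a b r)^[i] x with hz
    have h1 : |(x : ℝ)| ≤ 2 ^ i * (|(z : ℝ)| + |(b : ℝ)|) := by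
      have := lower ha hb hr x i
      rw [← Int.cast_abs, ← Int.cast_abs, ← Int.cast_abs]; exact_mod_cast this
    have h2 : (2 : ℝ) ^ i ≤ 2 ^ n := pow_le_pow_right₀ (by norm_num) hi
    have h3 : (2 : ℝ) ^ i * |(b : ℝ)| ≤ |(x : ℝ)| / 2 := by
      have h4 : (2 : ℝ) ^ i * |(b : ℝ)| * 2 ≤ 2 ^ n * |(b : ℝ)| * 2 := by gcongr
      have h5 : (2 : ℝ) ^ n * |(b : ℝ)| * 2 =
          Real.exp (n * Real.log 2 + Real.log |(b : ℝ)| + Real.log 2) := by
        rw [Real.exp_add, Real.exp_add, Real.exp_log (by linarith), Real.exp_log (by norm_num),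
          Real.exp_nat_mul, Real.exp_log (by norm_num)]
      have h6 : |(x : ℝ)| = Real.exp L := (Real.exp_log (by linarith)).symm
      have h7 : (n : ℝ) * Real.log 2 + Real.log |(b : ℝ)| + Real.log 2 ≤ L := by
        have : τ / 4 * L ≤ 1 / 4 * L := mul_le_mul_of_nonneg_right (by linarith) hL0
        linarith
      have h8 := Real.exp_le_exp.2 h7
      rw [← h5, ← h6] at h8
      linarith
    have h4 : |(x : ℝ)| ≤ 2 ^ n * 2 * |(z : ℝ)| := by
      have h5 : (2 : ℝ) ^ i * |(z : ℝ)| ≤ 2 ^ n * |(z : ℝ)| :=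
        mul_le_mul_of_nonneg_right h2 (abs_nonneg _)
      nlinarith
    have hzpos : 0 < |(z : ℝ)| := by
      rcases (abs_nonneg (z : ℝ)).eq_or_lt with h0 | h0
      · rw [← h0, mul_zero] at h4; linarith
      · exact h0
    have h5 := Real.log_le_log (by linarith) h4
    rw [Real.log_mul (by positivity) hzpos.ne', Real.log_mul (by positivity) (by norm_num),
      Real.log_pow] at h5
    have h6 : L ≤ n * Real.log 2 + Real.log 2 + Real.log |(z : ℝ)| := h5
    have h7 : τ / 4 * L ≤ τ / 2 * L := mul_le_mul_of_nonneg_right (by linarith) hL0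
    nlinarith
  by_contra hcon
  push Not at hcon
  have hcard : m ≤ ((range (n + 1)).filter fun i => Large S η ((G a b r)^[i] x)).card := by
    by_contra hlt
    have h1 : ((range (n + 1)).filter fun i => Large S η ((G a b r)^[i] x)).card ≤ ⌊1 / η⌋₊ := by
      omega
    have h2 : ((((range (n + 1)).filter fun i => Large S η ((G a b r)^[i] x)).card : ℕ) : ℝ) ≤
        1 / η := (Nat.le_floor_iff (by positivity)).1 h1
    rw [le_div_iff₀ hη] at h2
    linarith
  obtain ⟨I, hI1, hI2⟩ := Finset.exists_subset_card_eq hcard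
  have hImem : ∀ i ∈ I, i ≤ n ∧ Large S η ((G a b r)^[i] x) := by
    intro i hi
    have h1 := Finset.mem_filter.1 (hI1 hi)
    rw [Finset.mem_range] at h1
    exact ⟨by omega, h1.2⟩
  have h1 := hW x hx2 n hn1 I hI2 (fun i hi => ⟨(hImem i hi).1, (hImem i hi).2.1⟩)
  have h2 : ∑ _i ∈ I, η * ((1 - τ) * L) ≤ ∑ i ∈ I, Real.log (sPart S ((G a b r)^[i] x)) := by
    refine Finset.sum_le_sum fun i hi => ?_
    obtain ⟨h3, h4, h5⟩ := hImem i hi
    have hz0 : 0 < |(((G a b r)^[i] x : ℤ) : ℝ)| := by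
      apply abs_pos.2
      exact_mod_cast (show (G a b r)^[i] x ≠ 0 by omega)
    have h6 := Real.log_le_log (Real.rpow_pos_of_pos hz0 η) h5
    rw [Real.log_rpow hz0] at h6
    have h7 := mul_le_mul_of_nonneg_left (hlow i h3) hη.le
    linarith
  rw [Finset.sum_const, hI2, nsmul_eq_mul] at h2
  have h3 : (m : ℝ) * (η * ((1 - τ) * L)) = (1 + κ) * (1 - τ) * L := by
    rw [hκ]; ring
  rw [h3] at h2
  have h4 : (1 + κ) * τ = κ / 4 := by rw [hτ]; field_simp
  have h5 : (1 + κ) * (1 - τ) = 1 + 3 / 4 * κ := by linear_combination -h4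
  rw [h5] at h2
  have hLpos : 0 < L := by
    have h6 : 0 < Real.log 2 + Real.log |(b : ℝ)| := by linarith
    by_contra hneg
    have : L = 0 := le_antisymm (not_lt.1 hneg) hL0
    rw [this, mul_zero] at hbL
    linarith
  nlinarith

end Pool.Agent.H977.SP
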