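import Mathlib
import Pool.Agent.H977.SP.Count

set_option autoImplicit false

/-!
Cycles and unbounded trajectories: from short pieces to long ones.
-/

open Finset Filter Topology

namespace Pool.Agent.H977.SP

/-- counting in blocks of length `w` -/
theorem blocks (P : ℕ → Prop) [DecidablePred P] (w : ℕ) (hw : 1 ≤ w) (K i₀ N : ℕ)
    (h : ∀ i, i₀ ≤ i → i < N → ((range w).filter fun j => P (i + j)).card ≤ K) :
    ((range N).filter fun i => i₀ ≤ i ∧ P i).card ≤ K * (N / w + 1) := by
  classical
  set A := (range N).filter fun i => i₀ ≤ i ∧ P i with hA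
  have h1 := Finset.card_le_mul_card_image (f := fun i => (i - i₀) / w) A K (by
    intro q hq
    rw [Finset.mem_image] at hq
    obtain ⟨i₁, hi₁, hq1⟩ := hq
    rw [hA, Finset.mem_filter, Finset.mem_range] at hi₁
    have hstart : i₀ + q * w < N := by
      have := Nat.div_mul_le_self (i₁ - i₀) w
      rw [hq1] at this
      omega
    refine le_trans ?_ (h (i₀ + q * w) (Nat.le_add_right _ _) hstart)
    apply Finset.card_le_card_of_injOn (fun i => i - (i₀ + q * w))
    · intro i hi
      rw [Finset.mem_coe, Finset.mem_filter, hA, Finset.mem_filter, Finset.mem_range] at hi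
      obtain ⟨⟨h2, h3, h4⟩, h5⟩ := hi
      have h6 := Nat.div_mul_le_self (i - i₀) w
      have h7 := Nat.lt_div_mul_add (a := i - i₀) (show 0 < w by omega)
      rw [h5] at h6 h7
      rw [Finset.mem_coe, Finset.mem_filter, Finset.mem_range]
      beta_reduce
      refine ⟨by omega, ?_⟩
      have h8 : i₀ + q * w + (i - (i₀ + q * w)) = i := by omega
      rw [h8]; exact h4
    · intro i hi j hj hij
      rw [Finset.mem_coe, Finset.mem_filter, hA, Finset.mem_filter, Finset.mem_range] at hi hj
      obtain ⟨⟨h2, h3, h4⟩, h5⟩ := hi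
      obtain ⟨⟨h2', h3', h4'⟩, h5'⟩ := hj
      have h6 := Nat.div_mul_le_self (i - i₀) w
      have h6' := Nat.div_mul_le_self (j - i₀) w
      rw [h5] at h6
      rw [h5'] at h6'
      have h9 : i - (i₀ + q * w) = j - (i₀ + q * w) := hij
      omega)
  refine h1.trans (Nat.mul_le_mul_left _ ?_)
  have h2 : A.image (fun i => (i - i₀) / w) ⊆ range (N / w + 1) := by
    intro q hq
    rw [Finset.mem_image] at hq
    obtain ⟨i, hi, rfl⟩ := hq
    rw [hA, Finset.mem_filter, Finset.mem_range] at hi
    rw [Finset.mem_range]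
    have : (i - i₀) / w ≤ N / w := Nat.div_le_div_right (by omega)
    omega
  have h3 := Finset.card_le_card h2
  rwa [Finset.card_range] at h3

variable {a b : ℤ} {r : ℕ} (ha : a % 2 = 1) (hb : b % 2 = 1) (hr : r ≤ 1)

include ha hb hr in
/-- a cycle is not much shorter than the logarithms of its elements -/
theorem cycle_long (ha3 : a ≠ 1 ∧ a ≠ -1) (x : ℤ) (p : ℕ) (hp : 1 ≤ p)
    (hper : (G a b r)^[p] x = x) : |x| ≤ |b| * (|a| + 2) ^ p := by
  obtain ⟨c, h1, h2⟩ := form ha hb hr x p
  rw [hper] at h1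
  have h3 : ((2 : ℤ) ^ (hh a b r x p) - a ^ (kk a b r x p)) * x = c := by linear_combination h1
  have h4 : (2 : ℤ) ^ (hh a b r x p) - a ^ (kk a b r x p) ≠ 0 := by
    intro h0
    have h5 : (2 : ℤ) ^ (hh a b r x p) = a ^ (kk a b r x p) := by linarith
    have hodd : Odd (a ^ (kk a b r x p)) := (Int.odd_iff.2 ha).pow
    have hh0 : hh a b r x p = 0 := by
      by_contra hne
      rw [← h5] at hodd
      exact (Int.not_odd_iff_even.2 ((even_two).pow_of_ne_zero hne)) hodd
    have hk0 : kk a b r x p = 0 := by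
      by_contra hne
      rw [hh0, pow_zero] at h5
      have h6 : IsUnit a := by
        rw [← isUnit_pow_iff hne, ← h5]; exact isUnit_one
      rcases Int.isUnit_iff.1 h6 with h7 | h7
      · exact ha3.1 h7
      · exact ha3.2 h7
    -- no step at all
    have hstep : ∀ n, 1 ≤ n → 1 ≤ hh a b r x n + kk a b r x n := by
      intro n hn
      obtain ⟨n', rfl⟩ := Nat.exists_eq_add_of_le' hn
      rw [hh, kk]
      split_ifs <;> omega
    have := hstep p hp
    omega
  have h5 : |x| ≤ |c| := by
    rw [← h3, abs_mul]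
    have := Int.one_le_abs h4
    have := abs_nonneg x
    nlinarith
  exact h5.trans h2

open Classical in
include ha hb hr in
/-- **Large `S`-parts in cycles.** -/
theorem cycles (ha3 : a ≠ 1 ∧ a ≠ -1) (S : Finset ℕ) (η : ℝ) (hη : 0 < η) :
    ∃ C : ℝ, ∀ (x : ℤ) (p m : ℕ), 1 ≤ p → (G a b r)^[p] x = x → 2 ≤ m →
      (∀ i < p, (m : ℝ) ≤ |(((G a b r)^[i] x : ℤ) : ℝ)|) →
      (((range p).filter fun i => Large S η ((G a b r)^[i] x)).card : ℝ) ≤
        C * p / Real.log m := by
  obtain ⟨c, hc, x₀, hW⟩ := traj_count ha hb hr S η hη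
  have hb0 : b ≠ 0 := by rintro rfl; omega
  have hbR : (1 : ℝ) ≤ |(b : ℝ)| := by rw [← Int.cast_abs]; exact_mod_cast Int.one_le_abs hb0
  set A : ℝ := Real.log (|(a : ℝ)| + 2) with hA
  have hA0 : 0 < A := Real.log_pos (by have := abs_nonneg (a : ℝ); linarith)
  set L₀ : ℝ := max (Real.log (max 1 x₀)) (max (2 / c) (2 * Real.log |(b : ℝ)|)) with hL₀
  have hL₀0 : 0 ≤ L₀ := le_trans (Real.log_nonneg (le_max_left _ _)) (le_max_left _ _)
  set K := ⌊1 / η⌋₊ with hK
  refine ⟨L₀ + (K * (2 / c) + K * (2 * A)), ?_⟩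
  intro x p m hp hper hm hbig
  have hmR : (2 : ℝ) ≤ m := by exact_mod_cast hm
  set L := Real.log m with hL
  have hLpos : 0 < L := Real.log_pos (by linarith)
  have hpR : (0 : ℝ) < p := by exact_mod_cast hp
  rw [le_div_iff₀ hLpos]
  have hcardp : (((range p).filter fun i => Large S η ((G a b r)^[i] x)).card : ℝ) ≤ p := by
    have := Finset.card_filter_le (range p) (fun i => Large S η ((G a b r)^[i] x))
    rw [Finset.card_range] at this
    exact_mod_cast this
  have hextra : 0 ≤ (K * (2 / c) + K * (2 * A)) * (p : ℝ) := by positivity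
  rcases le_or_gt L L₀ with hcase | hcase
  · calc (((range p).filter fun i => Large S η ((G a b r)^[i] x)).card : ℝ) * L ≤ p * L₀ :=
          mul_le_mul hcardp hcase hLpos.le hpR.le
      _ ≤ (L₀ + (K * (2 / c) + K * (2 * A))) * p := by linarith
  · -- long cycle elements
    have h1 : Real.log (max 1 x₀) < L := lt_of_le_of_lt (le_max_left _ _) hcase
    have h2 : 2 / c < L := lt_of_le_of_lt ((le_max_left _ _).trans (le_max_right _ _)) hcase
    have h3 : 2 * Real.log |(b : ℝ)| < L :=
      lt_of_le_of_lt ((le_max_right _ _).trans (le_max_right _ _)) hcase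
    have hx0m : x₀ ≤ m := by
      have h4 : max 1 x₀ < m := by
        by_contra hcon
        push Not at hcon
        have := Real.log_le_log (by linarith) hcon
        linarith
      exact (le_max_right _ _).trans h4.le
    have hcL : 2 < c * L := by rw [div_lt_iff₀ hc] at h2; linarith
    set w := ⌊c * L⌋₊ with hw
    have hw1 : 1 ≤ w := by
      rw [hw, Nat.one_le_floor_iff]; linarith
    have hwle : (w : ℝ) ≤ c * L := Nat.floor_le (by linarith)
    have hwge : c * L / 2 ≤ w := by
      have := Nat.lt_floor_add_one (c * L)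
      rw [← hw] at this
      linarith
    have hblock := blocks (fun i => Large S η ((G a b r)^[i] x)) w hw1 K 0 p (by
      intro i _ hi
      have h4 := hbig i hi
      have h5 := hW ((G a b r)^[i] x) (hx0m.trans h4) (w - 1) (by
        have h6 : (((w - 1 : ℕ)) : ℝ) ≤ w := by exact_mod_cast Nat.sub_le _ _
        have h7 : L ≤ Real.log |(((G a b r)^[i] x : ℤ) : ℝ)| :=
          Real.log_le_log (by linarith) h4
        have h8 := mul_le_mul_of_nonneg_left h7 hc.le
        linarith)
      rw [Nat.sub_add_cancel hw1] at h5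
      rw [hK]
      apply Nat.le_floor
      rw [le_div_iff₀ hη]
      have h9 : ((range w).filter fun j => Large S η ((G a b r)^[i + j] x)) =
          ((range w).filter fun j => Large S η ((G a b r)^[j] ((G a b r)^[i] x))) := by
        apply Finset.filter_congr
        intro j _
        rw [add_comm i j, Function.iterate_add_apply]
      rw [h9]
      linarith)
    have h4 : ((range p).filter fun i => 0 ≤ i ∧ Large S η ((G a b r)^[i] x)) =
        ((range p).filter fun i => Large S η ((G a b r)^[i] x)) := by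
      apply Finset.filter_congr
      intro i _
      simp
    rw [h4] at hblock
    have h5 : (((range p).filter fun i => Large S η ((G a b r)^[i] x)).card : ℝ) ≤
        K * ((p : ℝ) / w + 1) := by
      have h6 : (((p / w : ℕ)) : ℝ) ≤ (p : ℝ) / w := Nat.cast_div_le
      have h7 : (((range p).filter fun i => Large S η ((G a b r)^[i] x)).card : ℝ) ≤
          K * (((p / w : ℕ) : ℝ) + 1) := by exact_mod_cast hblock
      refine h7.trans (mul_le_mul_of_nonneg_left (by linarith) (Nat.cast_nonneg K))
    have hwpos : (0 : ℝ) < w := by exact_mod_cast hw1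
    have h6 : (p : ℝ) / w * L ≤ 2 / c * p := by
      rw [div_mul_eq_mul_div, div_le_iff₀ hwpos]
      have h7 : L ≤ 2 / c * w := by
        rw [div_mul_eq_mul_div, le_div_iff₀ hc]
        linarith
      calc (p : ℝ) * L ≤ p * (2 / c * w) := mul_le_mul_of_nonneg_left h7 hpR.le
        _ = 2 / c * p * w := by ring
    have h7 : L ≤ 2 * A * p := by
      have h8 : |x| ≤ |b| * (|a| + 2) ^ p := by
        exact cycle_long ha hb hr ha3 x p hp hper
      have h9 : |(x : ℝ)| ≤ |(b : ℝ)| * (|(a : ℝ)| + 2) ^ p := by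
        rw [← Int.cast_abs, ← Int.cast_abs, ← Int.cast_abs]; exact_mod_cast h8
      have h10 : (m : ℝ) ≤ |(x : ℝ)| := by simpa using hbig 0 (by omega)
      have h11 := Real.log_le_log (by linarith) (h10.trans h9)
      rw [Real.log_mul (by linarith) (by positivity), Real.log_pow] at h11
      have h12 : L ≤ Real.log |(b : ℝ)| + p * A := h11
      linarith
    have hKnn : (0 : ℝ) ≤ K := Nat.cast_nonneg K
    calc (((range p).filter fun i => Large S η ((G a b r)^[i] x)).card : ℝ) * L
        ≤ K * ((p : ℝ) / w + 1) * L := mul_le_mul_of_nonneg_right h5 hLpos.le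
      _ = K * ((p : ℝ) / w * L + L) := by ring
      _ ≤ K * (2 / c * p + 2 * A * p) := mul_le_mul_of_nonneg_left (by linarith) hKnn
      _ ≤ (L₀ + (K * (2 / c) + K * (2 * A))) * p := by
          have := mul_nonneg hL₀0 hpR.le
          nlinarith

open Classical in
include ha hb hr in
/-- **Large `S`-parts in unbounded trajectories.** -/
theorem unbounded (S : Finset ℕ) (η : ℝ) (hη : 0 < η) (x : ℤ)
    (hinj : Function.Injective fun i => (G a b r)^[i] x) :
    Tendsto (fun N : ℕ => (((range N).filter fun i => Large S η ((G a b r)^[i] x)).card : ℝ) / N)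
      atTop (nhds 0) := by
  obtain ⟨c, hc, x₀, hW⟩ := traj_count ha hb hr S η hη
  set K := ⌊1 / η⌋₊ with hK
  rw [Metric.tendsto_atTop]
  intro ρ hρ
  -- a block length
  obtain ⟨w, hw⟩ := exists_nat_gt (2 * (K : ℝ) / ρ)
  have hw1 : 1 ≤ w := by
    by_contra hlt
    have : w = 0 := by omega
    rw [this] at hw
    have h1 : (0 : ℝ) ≤ 2 * (K : ℝ) / ρ := by positivity
    simp only [Nat.cast_zero] at hw
    linarith
  have hwpos : (0 : ℝ) < w := by exact_mod_cast hw1
  -- from some time on all terms are large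
  set B : ℝ := max x₀ (Real.exp (w / c)) with hB
  have hfin : {i : ℕ | |(((G a b r)^[i] x : ℤ) : ℝ)| < B}.Finite := by
    have h1 : {i : ℕ | |(((G a b r)^[i] x : ℤ) : ℝ)| < B} ⊆
        (fun i => (G a b r)^[i] x) ⁻¹' (Set.Icc (-⌈B⌉) ⌈B⌉) := by
      intro i hi
      have h2 : |(((G a b r)^[i] x : ℤ) : ℝ)| < B := hi
      rw [← Int.cast_abs] at h2
      have h3 : |(G a b r)^[i] x| ≤ ⌈B⌉ := by
        have := h2.trans_le (Int.le_ceil B)
        exact_mod_cast this.le
      exact abs_le.1 h3
    exact ((Set.finite_Icc _ _).preimage hinj.injOn).subset h1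
  obtain ⟨i₀, hi₀⟩ := hfin.bddAbove
  have hlarge : ∀ i, i₀ + 1 ≤ i → B ≤ |(((G a b r)^[i] x : ℤ) : ℝ)| := by
    intro i hi
    by_contra hlt
    have := hi₀ (show i ∈ {i : ℕ | |(((G a b r)^[i] x : ℤ) : ℝ)| < B} from not_le.1 hlt)
    omega
  have hcount : ∀ N : ℕ, (((range N).filter fun i => Large S η ((G a b r)^[i] x)).card : ℝ) ≤
      (i₀ + 1) + K * ((N : ℝ) / w + 1) := by
    intro N
    have hblock := blocks (fun i => Large S η ((G a b r)^[i] x)) w hw1 K (i₀ + 1) N (by
      intro i hi _
      have h4 := hlarge i hi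
      have h5 := hW ((G a b r)^[i] x) ((le_max_left _ _).trans h4) (w - 1) (by
        have h6 : (((w - 1 : ℕ)) : ℝ) ≤ w := by exact_mod_cast Nat.sub_le _ _
        have h7 : (w : ℝ) / c ≤ Real.log |(((G a b r)^[i] x : ℤ) : ℝ)| := by
          have h8 := (le_max_right _ _).trans h4
          exact (Real.le_log_iff_exp_le (lt_of_lt_of_le (Real.exp_pos _) h8)).2 h8
        rw [div_le_iff₀ hc] at h7
        linarith)
      rw [Nat.sub_add_cancel hw1] at h5
      rw [hK]
      apply Nat.le_floor
      rw [le_div_iff₀ hη]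
      have h9 : ((range w).filter fun j => Large S η ((G a b r)^[i + j] x)) =
          ((range w).filter fun j => Large S η ((G a b r)^[j] ((G a b r)^[i] x))) := by
        apply Finset.filter_congr
        intro j _
        rw [add_comm i j, Function.iterate_add_apply]
      rw [h9]
      linarith)
    have h1 : ((range N).filter fun i => Large S η ((G a b r)^[i] x)) ⊆
        range (i₀ + 1) ∪ ((range N).filter fun i => i₀ + 1 ≤ i ∧ Large S η ((G a b r)^[i] x)) := by
      intro i hi
      rw [Finset.mem_filter] at hi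
      rw [Finset.mem_union, Finset.mem_filter, Finset.mem_range]
      by_cases h : i < i₀ + 1
      · exact Or.inl h
      · exact Or.inr ⟨hi.1, by omega, hi.2⟩
    have h2 := (Finset.card_le_card h1).trans (Finset.card_union_le _ _)
    rw [Finset.card_range] at h2
    have h3 := h2.trans (Nat.add_le_add_left hblock _)
    have h6 : (((N / w : ℕ)) : ℝ) ≤ (N : ℝ) / w := Nat.cast_div_le
    have h7 : (((range N).filter fun i => Large S η ((G a b r)^[i] x)).card : ℝ) ≤
        (i₀ + 1) + K * (((N / w : ℕ) : ℝ) + 1) := by exact_mod_cast h3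
    have hKnn : (0 : ℝ) ≤ K := Nat.cast_nonneg K
    have h8 : (K : ℝ) * (((N / w : ℕ) : ℝ) + 1) ≤ K * ((N : ℝ) / w + 1) :=
      mul_le_mul_of_nonneg_left (by linarith) hKnn
    linarith
  obtain ⟨N₀, hN₀⟩ := exists_nat_gt (2 * ((i₀ : ℝ) + 1 + K) / ρ)
  refine ⟨N₀ + 1, fun N hN => ?_⟩
  have hNpos : (0 : ℝ) < N := by
    have : 0 < N := by omega
    exact_mod_cast this
  rw [Real.dist_eq, sub_zero, abs_of_nonneg (by positivity), div_lt_iff₀ hNpos]
  have h1 := hcount N
  have h2 : 2 * ((i₀ : ℝ) + 1 + K) < ρ * N := by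
    have h3 : (N₀ : ℝ) ≤ N := by exact_mod_cast (by omega : N₀ ≤ N)
    have h4 := hN₀.trans_le h3
    rw [div_lt_iff₀ hρ] at h4
    linarith
  have h3 : 2 * ((K : ℝ) * ((N : ℝ) / w)) ≤ ρ * N := by
    rw [div_lt_iff₀ hρ] at hw
    have h4 : (K : ℝ) * ((N : ℝ) / w) = K * N / w := by ring
    rw [h4, ← mul_div_assoc, div_le_iff₀ hwpos]
    have h5 : 2 * (K : ℝ) * N ≤ (w * ρ) * N := mul_le_mul_of_nonneg_right hw.le hNpos.le
    linarith
  linarith

end Pool.Agent.H977.SP
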